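import Mathlib
import Pool.Agent.helper81.DI.SpecB

/-! Project di, module B12. -/

set_option autoImplicit false

namespace Pool.Agent.DI

open Pool.Agent.helper58.DC

section

variable {Γ : Type} [Group Γ]

theorem B12_funMap_mul (a b : MulAut Γ) (ψ : Γ → ℂ) :
    funMap (a * b) ψ = funMap a (funMap b ψ) := by
  funext g
  simp [funMap, mul_inv_rev, MulAut.mul_apply]

theorem B12_funMap_one (ψ : Γ → ℂ) : funMap (1 : MulAut Γ) ψ = ψ := by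
  funext g
  simp [funMap]

/-- the orbit -/
def B12_orb (N : Subgroup Γ) (ψ : Γ → ℂ) : Set (Γ → ℂ) :=
  {ψ' : Γ → ℂ | ∃ n ∈ N, ψ' = funMap (MulAut.conj n) ψ}

/-- synonym -/
def B12_F (Γ : Type) := Γ → ℂ

/-- the action -/
instance B12_inst (N : Subgroup Γ) : MulAction N (B12_F Γ) where
  smul n ψ := funMap (MulAut.conj (n : Γ)) ψ
  one_smul ψ := by
    show funMap (MulAut.conj ((1 : N) : Γ)) ψ = ψ
    rw [Subgroup.coe_one, map_one]
    exact B12_funMap_one ψ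
  mul_smul a b ψ := by
    show funMap (MulAut.conj ((a * b : N) : Γ)) ψ =
      funMap (MulAut.conj (a : Γ)) (funMap (MulAut.conj (b : Γ)) ψ)
    rw [Subgroup.coe_mul, map_mul]
    exact B12_funMap_mul _ _ ψ

theorem B12_smul_def (N : Subgroup Γ) (n : N) (ψ : B12_F Γ) :
    n • ψ = funMap (MulAut.conj (n : Γ)) ψ := rfl

theorem B12_orb_eq (N : Subgroup Γ) (ψ : Γ → ℂ) :
    B12_orb N ψ = (MulAction.orbit N (ψ : B12_F Γ) : Set (B12_F Γ)) := by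
  ext ψ'
  constructor
  · rintro ⟨n, hn, h⟩
    exact ⟨⟨n, hn⟩, h.symm⟩
  · rintro ⟨n, h⟩
    exact ⟨n, n.2, h.symm⟩

theorem B12_orb_finite [Finite Γ] (N : Subgroup Γ) (ψ : Γ → ℂ) : (B12_orb N ψ).Finite := by
  have : B12_orb N ψ = Set.range (fun n : N => funMap (MulAut.conj (n : Γ)) ψ) := by
    ext ψ'
    constructor
    · rintro ⟨n, hn, h⟩
      exact ⟨⟨n, hn⟩, h.symm⟩
    · rintro ⟨n, h⟩
      exact ⟨n, n.2, h.symm⟩
  rw [this]
  exact Set.finite_range _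

theorem B12_orb_self (N : Subgroup Γ) (ψ : Γ → ℂ) : ψ ∈ B12_orb N ψ :=
  ⟨1, N.one_mem, by rw [map_one, B12_funMap_one]⟩

theorem B12_orb_of_mem (N : Subgroup Γ) (ψ ψ' : Γ → ℂ) (h : ψ' ∈ B12_orb N ψ) :
    B12_orb N ψ' = B12_orb N ψ := by
  obtain ⟨n, hn, rfl⟩ := h
  ext θ
  constructor
  · rintro ⟨m, hm, rfl⟩
    exact ⟨m * n, N.mul_mem hm hn, by rw [map_mul, B12_funMap_mul]⟩
  · rintro ⟨m, hm, rfl⟩
    refine ⟨m * n⁻¹, N.mul_mem hm (N.inv_mem hn), ?_⟩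
    rw [← B12_funMap_mul, ← map_mul]
    simp

theorem B12_card' [Finite Γ] (N : Subgroup Γ) (ψ : B12_F Γ) :
    (B12_orb N ψ).ncard * Nat.card (stF N ψ) = Nat.card N := by
  have h1 : Nat.card (MulAction.stabilizer N ψ) * (MulAction.stabilizer N ψ).index =
      Nat.card N := Subgroup.card_mul_index _
  have h2 : (MulAction.stabilizer N ψ).index = (B12_orb N ψ).ncard := by
    rw [MulAction.index_stabilizer]
    rw [B12_orb_eq]
    rfl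
  have h3 : Nat.card (MulAction.stabilizer N ψ) = Nat.card (stF N ψ) := by
    refine Nat.card_congr ⟨fun x => ⟨(x.1 : Γ), x.1.2, x.2⟩, fun y => ⟨⟨y.1, y.2.1⟩, y.2.2⟩, ?_, ?_⟩
    · intro x; rfl
    · intro y; rfl
  rw [h2, h3] at h1
  rw [mul_comm]
  exact h1

theorem B12_card [Finite Γ] (N : Subgroup Γ) (ψ : Γ → ℂ) :
    (B12_orb N ψ).ncard * Nat.card (stF N ψ) = Nat.card N := B12_card' N ψ

theorem B12_stF_orb [Finite Γ] (N : Subgroup Γ) (ψ ψ' : Γ → ℂ) (h : ψ' ∈ B12_orb N ψ) :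
    Nat.card (stF N ψ') = Nat.card (stF N ψ) := by
  have h1 := B12_card N ψ
  have h2 := B12_card N ψ'
  rw [B12_orb_of_mem N ψ ψ' h] at h2
  have hpos : 0 < (B12_orb N ψ).ncard := by
    rw [Set.ncard_pos (B12_orb_finite N ψ)]
    exact ⟨ψ, B12_orb_self N ψ⟩
  exact Nat.eq_of_mul_eq_mul_left hpos (h2.trans h1.symm)

theorem B12_sum_orb [Finite Γ] (N : Subgroup Γ) (ψ : Γ → ℂ) (S : Finset (Γ → ℂ))
    (hS : (S : Set (Γ → ℂ)) = B12_orb N ψ) :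
    ∑ ψ' ∈ S, (Nat.card (stF N ψ') : ℤ) = (Nat.card N : ℤ) := by
  have h1 : ∀ ψ' ∈ S, (Nat.card (stF N ψ') : ℤ) = (Nat.card (stF N ψ) : ℤ) := by
    intro ψ' hψ'
    have : ψ' ∈ B12_orb N ψ := by rw [← hS]; exact_mod_cast hψ'
    rw [B12_stF_orb N ψ ψ' this]
  rw [Finset.sum_congr rfl h1, Finset.sum_const, nsmul_eq_mul]
  have h2 : S.card = (B12_orb N ψ).ncard := by
    rw [← hS, Set.ncard_coe_finset]
  rw [h2, ← B12_card N ψ]
  push_cast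
  ring

theorem B12_over_one [Finite Γ] (K N : Subgroup Γ) (φ ψ : Γ → ℂ) (h : OverP K N φ ψ) :
    φ 1 = (B12_orb N ψ).ncard * ψ 1 := by
  have h1 := h 1 K.one_mem
  rw [h1]
  have hfin := B12_orb_finite N ψ
  have h2 : ∑ᶠ ψ' ∈ {ψ' : Γ → ℂ | ∃ n ∈ N, ψ' = funMap (MulAut.conj n) ψ}, ψ' 1 =
      ∑ ψ' ∈ hfin.toFinset, ψ' 1 :=
    finsum_mem_eq_finite_toFinset_sum (fun ψ' : Γ → ℂ => ψ' 1) hfin
  rw [h2]
  have h3 : ∀ ψ' ∈ hfin.toFinset, ψ' 1 = ψ 1 := by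
    intro ψ' hψ'
    rw [Set.Finite.mem_toFinset] at hψ'
    obtain ⟨n, hn, rfl⟩ := hψ'
    simp [funMap]
  rw [Finset.sum_congr rfl h3, Finset.sum_const, nsmul_eq_mul]
  rw [Set.ncard_eq_toFinset_card _ hfin]

theorem B12_over_orb (K N : Subgroup Γ) (φ ψ ψ' : Γ → ℂ) (h : ψ' ∈ B12_orb N ψ) :
    OverP K N φ ψ' ↔ OverP K N φ ψ := by
  have h1 : {θ : Γ → ℂ | ∃ n ∈ N, θ = funMap (MulAut.conj n) ψ'} =
      {θ : Γ → ℂ | ∃ n ∈ N, θ = funMap (MulAut.conj n) ψ} := B12_orb_of_mem N ψ ψ' h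
  unfold OverP
  rw [h1]

theorem B12_defect [Finite Γ] (p : ℕ) [Fact p.Prime] (K N : Subgroup Γ) (φ ψ : Γ → ℂ) (r : ℕ)
    (h : OverP K N φ ψ) (hr : r * Nat.card K = Nat.card (stF N ψ))
    (hφ : ∃ n : ℕ, 0 < n ∧ φ 1 = n) (hψ : ∃ n : ℕ, 0 < n ∧ ψ 1 = n) (d : ℤ) :
    Defect p N φ d ↔ Defect p K ψ (d - padicValNat p r) := by
  obtain ⟨n₁, hn₁, h₁⟩ := hφ
  obtain ⟨n₂, hn₂, h₂⟩ := hψ
  have hc := B12_over_one K N φ ψ h
  set c := (B12_orb N ψ).ncard with hcdef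
  have hcard := B12_card N ψ
  rw [← hcdef] at hcard
  have hNpos : 0 < Nat.card N := Nat.card_pos
  have hKpos : 0 < Nat.card K := Nat.card_pos
  have hcpos : c ≠ 0 := by
    rintro h0
    rw [h0] at hcard
    omega
  have hSpos : Nat.card (stF N ψ) ≠ 0 := Nat.card_pos.ne'
  have hrpos : r ≠ 0 := by
    rintro h0
    rw [h0] at hr
    omega
  have hn : n₁ = c * n₂ := by
    rw [h₁, h₂] at hc
    exact_mod_cast hc
  have hN : Nat.card N = c * (r * Nat.card K) := by rw [hr, hcard]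
  have v1 : padicValNat p n₁ = padicValNat p c + padicValNat p n₂ := by
    rw [hn, padicValNat.mul hcpos hn₂.ne']
  have v2 : padicValNat p (Nat.card N) = padicValNat p c + (padicValNat p r + padicValNat p (Nat.card K)) := by
    rw [hN, padicValNat.mul hcpos (mul_ne_zero hrpos hKpos.ne'), padicValNat.mul hrpos hKpos.ne']
  constructor
  · rintro ⟨n, hn', hd⟩
    have : n = n₁ := by rw [h₁] at hn'; exact_mod_cast hn'.symm
    subst this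
    refine ⟨n₂, h₂, ?_⟩
    rw [hd, v1, v2]
    generalize padicValNat p c = x1
    generalize padicValNat p n₂ = x2
    generalize padicValNat p r = x3
    generalize padicValNat p (Nat.card K) = x4
    omega
  · rintro ⟨n, hn', hd⟩
    have : n = n₂ := by rw [h₂] at hn'; exact_mod_cast hn'.symm
    subst this
    refine ⟨n₁, h₁, ?_⟩
    rw [v1, v2]
    revert hd
    generalize padicValNat p c = x1
    generalize padicValNat p n = x2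
    generalize padicValNat p r = x3
    generalize padicValNat p (Nat.card K) = x4
    intro hd
    omega

theorem B12_map_conj (G' N : Subgroup Γ) (hG : G'.Normal) (n : Γ) (hn : n ∈ N) :
    (N ⊓ G').map (MulAut.conj n).toMonoidHom = N ⊓ G' := by
  ext x
  rw [Subgroup.mem_map]
  constructor
  · rintro ⟨y, ⟨hy1, hy2⟩, rfl⟩
    refine ⟨?_, ?_⟩
    · exact N.mul_mem (N.mul_mem hn hy1) (N.inv_mem hn)
    · exact hG.conj_mem y hy2 n
  · rintro ⟨hx1, hx2⟩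
    refine ⟨n⁻¹ * x * n, ⟨?_, ?_⟩, ?_⟩
    · exact N.mul_mem (N.mul_mem (N.inv_mem hn) hx1) hn
    · have := hG.conj_mem x hx2 n⁻¹
      simpa using this
    · simp [MulAut.conj_apply]
      group

end

theorem B12_main (Γ : Type) [Group Γ] [Finite Γ] (p : ℕ) [Fact p.Prime]
    (M : Ideal (integralClosure ℤ ℂ)) (G' N : Subgroup Γ) (hC : CycQ G') (τ : Γ → ℂ) (d : ℤ)
    (hIF : IF_stmt) (h10 : B10_stmt) (h11 : B11_stmt) :
    gfun p M G' τ d N = (Nat.card (N ⊓ G' : Subgroup Γ) : ℤ) *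
      ∑ᶠ ψ ∈ {ψ : Γ → ℂ | ψ ∈ IrrOn (N ⊓ G') ∧ Cov M G' τ ψ ∧
        Defect p (N ⊓ G') ψ (d - padicValNat p (rr G' N ψ))}, ((rr G' N ψ : ℤ) ^ 2) := by
  classical
  obtain ⟨b1, b2, b3⟩ := h10 Γ G' N hC
  set K : Subgroup Γ := N ⊓ G' with hK
  obtain ⟨fN, iN⟩ := hIF Γ N
  obtain ⟨fK, iK⟩ := hIF Γ K
  -- rr
  have hrr : ∀ ψ ∈ IrrOn K, Nat.card {φ : Γ → ℂ // φ ∈ IrrOn N ∧ OverP K N φ ψ} = rr G' N ψ := by
    intro ψ hψ
    have h := b2 ψ hψ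
    unfold rr
    rw [← hK, ← h]
    exact (Nat.mul_div_cancel _ Nat.card_pos).symm
  have hrr2 : ∀ ψ ∈ IrrOn K, rr G' N ψ * Nat.card K = Nat.card (stF N ψ) := by
    intro ψ hψ
    rw [← hrr ψ hψ]
    exact b2 ψ hψ
  -- equivalence of the properties
  have hPQ : ∀ φ ∈ IrrOn N, ∀ ψ ∈ IrrOn K, OverP K N φ ψ →
      ((Defect p N φ d ∧ Cov M G' τ φ) ↔
        (Cov M G' τ ψ ∧ Defect p K ψ (d - padicValNat p (rr G' N ψ)))) := by
    intro φ hφ ψ hψ hR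
    have e1 := B12_defect p K N φ ψ (rr G' N ψ) hR (hrr2 ψ hψ) (iN φ hφ).1 (iK ψ hψ).1 d
    have e2 : Cov M G' τ φ ↔ Cov M G' τ ψ := by
      unfold Cov
      constructor
      · intro h g hg
        rw [← h11 Γ G' N hC.1 φ hφ ψ hψ hR g hg]
        exact h g hg
      · intro h g hg
        rw [h11 Γ G' N hC.1 φ hφ ψ hψ hR g hg]
        exact h g hg
    rw [e1, e2, and_comm]
  -- finsets
  set Φ : Finset (Γ → ℂ) := fN.toFinset.filter (fun φ => Defect p N φ d ∧ Cov M G' τ φ) with hΦ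
  set Ψ : Finset (Γ → ℂ) := fK.toFinset.filter
    (fun ψ => Cov M G' τ ψ ∧ Defect p K ψ (d - padicValNat p (rr G' N ψ))) with hΨ
  have mΦ : ∀ φ, φ ∈ Φ ↔ φ ∈ IrrOn N ∧ Defect p N φ d ∧ Cov M G' τ φ := by
    intro φ
    rw [hΦ, Finset.mem_filter, Set.Finite.mem_toFinset]
  have mΨ : ∀ ψ, ψ ∈ Ψ ↔ ψ ∈ IrrOn K ∧ Cov M G' τ ψ ∧
      Defect p K ψ (d - padicValNat p (rr G' N ψ)) := by
    intro ψ
    rw [hΨ, Finset.mem_filter, Set.Finite.mem_toFinset]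
  have hL : gfun p M G' τ d N = ∑ φ ∈ Φ, (Nat.card N : ℤ) := by
    unfold gfun
    rw [Finset.sum_const, nsmul_eq_mul, mul_comm]
    congr 1
    have : Nat.card {φ : Γ → ℂ // φ ∈ IrrOn N ∧ Defect p N φ d ∧ Cov M G' τ φ} = Φ.card := by
      rw [← Nat.card_eq_finsetCard Φ]
      exact Nat.card_congr (Equiv.subtypeEquivRight fun φ => (mΦ φ).symm)
    exact_mod_cast this
  have hR : ∑ᶠ ψ ∈ {ψ : Γ → ℂ | ψ ∈ IrrOn K ∧ Cov M G' τ ψ ∧
        Defect p K ψ (d - padicValNat p (rr G' N ψ))}, ((rr G' N ψ : ℤ) ^ 2) =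
      ∑ ψ ∈ Ψ, (rr G' N ψ : ℤ) ^ 2 := by
    have hset : {ψ : Γ → ℂ | ψ ∈ IrrOn K ∧ Cov M G' τ ψ ∧
        Defect p K ψ (d - padicValNat p (rr G' N ψ))} = (Ψ : Set (Γ → ℂ)) := by
      ext ψ
      rw [Finset.mem_coe, mΨ]
      rfl
    rw [hset]
    exact finsum_mem_coe_finset _ _
  rw [hL, hR]
  -- first count
  have c1 : ∀ φ ∈ Φ, (Nat.card N : ℤ) =
      ∑ ψ ∈ Ψ, if OverP K N φ ψ then (Nat.card (stF N ψ) : ℤ) else 0 := by
    intro φ hφ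
    rw [mΦ] at hφ
    obtain ⟨hφ1, hφ2⟩ := hφ
    obtain ⟨ψ₀, hψ₀, hR₀⟩ := b1 φ hφ1
    rw [← Finset.sum_filter]
    refine (B12_sum_orb N ψ₀ _ ?_).symm
    ext ψ
    rw [Finset.mem_coe, Finset.mem_filter, mΨ]
    constructor
    · rintro ⟨⟨hψ, -⟩, hRψ⟩
      exact b3 φ ψ₀ hψ₀ ψ hψ hR₀ hRψ
    · intro hψ
      have hψK : ψ ∈ IrrOn K := by
        obtain ⟨n, hn, rfl⟩ := hψ
        have := (iK ψ₀ hψ₀).2.2 (MulAut.conj n)
        rw [hK, B12_map_conj G' N hC.1 n hn] at this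
        exact this
      have hRψ : OverP K N φ ψ := (B12_over_orb K N φ ψ₀ ψ hψ).2 hR₀
      exact ⟨⟨hψK, (hPQ φ hφ1 ψ hψK hRψ).1 hφ2⟩, hRψ⟩
  rw [Finset.sum_congr rfl c1, Finset.sum_comm, Finset.mul_sum]
  refine Finset.sum_congr rfl fun ψ hψ => ?_
  rw [mΨ] at hψ
  obtain ⟨hψ1, hψ2⟩ := hψ
  rw [← Finset.sum_filter, Finset.sum_const, nsmul_eq_mul]
  have c2 : (Φ.filter fun φ => OverP K N φ ψ).card = rr G' N ψ := by
    rw [← hrr ψ hψ1, ← Nat.card_eq_finsetCard]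
    refine Nat.card_congr (Equiv.subtypeEquivRight fun φ => ?_)
    rw [Finset.mem_filter, mΦ]
    constructor
    · rintro ⟨⟨h1, -⟩, h2⟩
      exact ⟨h1, h2⟩
    · rintro ⟨h1, h2⟩
      exact ⟨⟨h1, (hPQ φ h1 ψ hψ1 h2).2 hψ2⟩, h2⟩
  rw [c2, ← hrr2 ψ hψ1]
  push_cast
  ring

theorem B12 (hIF : IF_stmt) (h10 : B10_stmt) (h11 : B11_stmt) : B12_stmt := by
  intro Γ _ _ p _ M G' N hC τ d
  exact B12_main Γ p M G' N hC τ d hIF h10 h11

end Pool.Agent.DI
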